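import Mathlib
import Pool.Agent.HuaPair25.Final

/-!
Hua systems which do not come from Jordan division rings have closed pairs of subspaces.
-/

set_option autoImplicit false

open Pool.Agent.HuaVal Pool.Agent.HuaOne84 Pool.Agent.HuaPair25

/-- Let `j` be a Hua system on a torsion-free abelian group `A` which does not arise from a
quadratic Jordan division ring, let `e` and `x` be nonzero, and write `y⁻¹ = j_e(y)` and
`U_a = j_a j_e`.  There are subgroups `P ≠ A` and `R` with `x ∉ R`, closed under division by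
integers, such that `P` is generated by the `y⁻¹` with `y ∉ R`, and `R` by the `y⁻¹` with `y ∉ P`.
Further `U_a⁻¹ P ⊆ R` for `a ∉ P`, `U_a⁻¹ R ⊆ P` for `a ∉ R`, and `P` contains all elements which
are algebraic over the rational numbers relative to `f⁻¹` for some `f ∉ R`. -/
theorem Pool.Agent.HuaKept19.ClosedPairs.result :
  ∀ (A : Type) [AddCommGroup A], (∀ (n : ℕ) (a : A), n ≠ 0 → n • a = 0 → a = 0) →
    ∀ j : A → Option A → Option A, IsHua j →
    ∀ e x : A, e ≠ 0 → x ≠ 0 → ¬ FromJordan j →
    ∃ P R : AddSubgroup A, P ≠ ⊤ ∧ x ∉ R ∧ IsPure P ∧ IsPure R ∧ IsClosedPair j e P R ∧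
      (∀ a b c : A, a ∉ P → b ∈ P → j e (j a (some b)) = some c → c ∈ R) ∧
      (∀ a b c : A, a ∉ R → b ∈ R → j e (j a (some b)) = some c → c ∈ P) ∧
      (∀ a f g : A, f ∉ R → j e (some f) = some g → IsAlgOver j g a → a ∈ P) := by
  intro A _ hA j hj e x he hx hn
  exact main A hA j hj he hx hn
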