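import Mathlib
import Pool.Agent.HuaOne84.Gen

/-!
Two points of a Hua system over an infinite field generate the Hua system of an extension field.
-/

set_option autoImplicit false

open Pool.Agent.HuaVal Pool.Agent.HuaOne84

/-- Let `K` be an infinite field of characteristic not two, `j` a Hua system on a `K`-vector space
`A` with `j a (t • b) = t⁻¹ • j a b` for `t ≠ 0`, and let `e ≠ 0` and `x` be in `A`.  There are an
extension field `L` of `K` and an injective `K`-linear map `φ : L → A` with `φ 1 = e` and `x` in its
image such that `j` acts on `φ (L)` in the way of the field `L`, and `φ (L)` lies in every subspace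
which contains `e` and `x` and is closed under `j`.  If `φ` is surjective, then `j` arises from a
quadratic Jordan division ring. -/
theorem Pool.Agent.HuaKept19.TwoPointsOverField.result :
  ∀ (K : Type) [Field K] [Infinite K], (2 : K) ≠ 0 →
    ∀ (A : Type) [AddCommGroup A] [Module K A] (j : A → Option A → Option A), IsHua j →
    (∀ (t : K) (a b c : A), t ≠ 0 → a ≠ 0 → b ≠ 0 → j a (some b) = some c →
      j a (some (t • b)) = some (t⁻¹ • c)) →
    ∀ e x : A, e ≠ 0 →
    ∃ (L : Type) (_ : Field L) (_ : Algebra K L) (φ : L →ₗ[K] A),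
      Function.Injective φ ∧ φ 1 = e ∧ (∃ u, φ u = x) ∧ IsFieldPart j φ ∧
      (∀ B : Submodule K A, e ∈ B → x ∈ B →
        (∀ a b c : A, a ∈ B → b ∈ B → a ≠ 0 → b ≠ 0 → j a (some b) = some c → c ∈ B) →
        ∀ u, φ u ∈ B) ∧
      (Function.Surjective φ → FromJordan j) := by
  intro K _ _ h2 A _ _ j hj hK e x he
  obtain ⟨L, iF, iA, φ, h1, h2, h3, h4, h5⟩ := genK K h2 A j hj hK e x he
  exact ⟨L, iF, iA, φ, h1, h2, h3, h4, h5,
    fun hs => ofField' A j L φ.toAddMonoidHom h1 hs h4⟩
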